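import Pool.Agent.helper68.GB.Spec

/-! gb:NIS, decomposition of the restriction of a block idempotent -/

set_option autoImplicit false

namespace Pool.Agent.GB

open Pool.Agent.helper58.DC Pool.Agent.DI Pool.Agent.GR Pool.Agent.OB Pool.Agent.DR Pool.Agent.FI Pool.Agent.FI3 Pool.Agent.FI4 Pool.Agent.LE Pool.Agent.BR

theorem NIS_rsk {G : Type} [Group G] (K : Subgroup G) (z : G → ℂ) {x : G} (h : x ∈ K) : rsk K z x = z x := by
  unfold rsk
  rw [if_pos h]

theorem NIS_rsk0 {G : Type} [Group G] (K : Subgroup G) (z : G → ℂ) {x : G} (h : x ∉ K) : rsk K z x = 0 := by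
  unfold rsk
  rw [if_neg h]

theorem NIS_CF {G : Type} [Group G] {H K : Subgroup G} (hle : K ≤ H) {z : G → ℂ} (hz : CF H z) : CF K (rsk K z) := by
  refine ⟨fun h hh x => ?_, fun x hx => NIS_rsk0 K z hx⟩
  by_cases hx : x ∈ K
  · rw [NIS_rsk K z hx, NIS_rsk K z (K.mul_mem (K.mul_mem hh hx) (K.inv_mem hh)), hz.1 h (hle hh)]
  · have h1 : h * x * h⁻¹ ∉ K := by
      intro h2
      apply hx
      have h3 := K.mul_mem (K.mul_mem (K.inv_mem hh) h2) hh
      have h4 : h⁻¹ * (h * x * h⁻¹) * h = x := by group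
      rwa [h4] at h3
    rw [NIS_rsk0 K z hx, NIS_rsk0 K z h1]

/-- the convolution is additive over finite sums -/
theorem NIS_cvsum {G : Type} [Group G] [Finite G] (a : G → ℂ) (s : Finset (G → ℂ)) (x : G) :
    cv a (fun y => ∑ f ∈ s, f y) x = ∑ f ∈ s, cv a f x := by
  have hft : Fintype G := Fintype.ofFinite G
  unfold cv
  rw [finsum_eq_sum_of_fintype]
  have h1 : ∀ f : G → ℂ, ∑ᶠ y, a y * f (y⁻¹ * x) = ∑ y, a y * f (y⁻¹ * x) := fun f => finsum_eq_sum_of_fintype _
  simp only [h1]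
  rw [Finset.sum_comm]
  refine Finset.sum_congr rfl fun y _ => ?_
  rw [Finset.mul_sum]

theorem NIS (hDIC : DIC_stmt) (hREP : REP_stmt) (hBRQ : BRQ_stmt) (hCVF : CVF_stmt) : NIS_stmt := by
  classical
  intro p M hS G _ _ Q S e hPai hpS hQS hSn hinv x
  obtain ⟨hCF, hsup, hint, hidem⟩ := (hREP p M hS G (cz Q)).2.2.2.1 e hPai.bb
  have hle : cz S ≤ cz Q := cz_mono hQS
  set e' := rsk (cz S) e with he'
  have hCF' : CF (cz S) e' := NIS_CF hle hCF
  have hint' : ∀ y, IntAt M (e' y) := by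
    intro y
    by_cases hy : y ∈ cz S
    · rw [he', NIS_rsk _ _ hy]
      exact hint y
    · rw [he', NIS_rsk0 _ _ hy]
      exact IntAt.zero hS
  have hid' : ∀ y, InM M (cv e' e' y - e' y) := by
    intro y
    have h1 := hBRQ p M hS G (cz Q) S hpS e e hsup hsup hint hint hinv hinv y
    rw [inf_eq_right.2 hle, hidem] at h1
    have h2 := h1.neg
    rw [neg_sub] at h2
    exact h2
  have hfin : (BB M (cz S)).Finite := (hREP p M hS G (cz S)).1
  have hdl : ∀ y, ∑ f ∈ hfin.toFinset, f y = Pool.Agent.GR.dl y := by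
    intro y
    rw [← (hDIC p M hS G (cz S)).2.2.2.1 y, finsum_mem_eq_finite_toFinset_sum _ hfin]
  have hsum : e' x = ∑ f ∈ hfin.toFinset, cv e' f x := by
    rw [← NIS_cvsum]
    have h1 : (fun y => ∑ f ∈ hfin.toFinset, f y) = Pool.Agent.GR.dl := funext hdl
    rw [h1, ((hCVF G).2.2.2.1 e').2]
  have hN : ∑ᶠ f ∈ {f | Nin p M Q e S f}, f x = ∑ f ∈ hfin.toFinset, if Nin p M Q e S f then f x else 0 := by
    rw [← Finset.sum_filter, finsum_mem_def]
    rw [finsum_eq_sum_of_support_subset (s := hfin.toFinset.filter (fun f => Nin p M Q e S f))]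
    · refine Finset.sum_congr rfl fun f hf => ?_
      rw [Set.indicator_of_mem]
      exact (Finset.mem_filter.1 hf).2
    · intro f hf
      rw [Function.mem_support] at hf
      have h1 : f ∈ {f | Nin p M Q e S f} := by
        by_contra h2
        exact hf (Set.indicator_of_notMem h2 _)
      have h3 : Nin p M Q e S f := h1
      rw [Finset.mem_coe, Finset.mem_filter, Set.Finite.mem_toFinset]
      exact ⟨h3.r.bb, h3⟩
  rw [hsum, hN, ← Finset.sum_sub_distrib]
  refine InM.sum hS _ fun f hf => ?_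
  have hf' : f ∈ BB M (cz S) := hfin.mem_toFinset.1 hf
  by_cases hNin : Nin p M Q e S f
  · rw [if_pos hNin]
    exact hNin.ef x
  · rw [if_neg hNin, sub_zero]
    rcases (hDIC p M hS G (cz S)).2.2.2.2 f hf' e' hCF' hint' hid' with h | h
    · exact h.1 x
    · exact absurd ⟨hPai, ⟨hpS, hf'⟩, hQS, hSn, hinv, h.1⟩ hNin

end Pool.Agent.GB
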